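import Pool.Agent.Lib.MP_4fbe7c_an.UL.Iface
import Pool.Agent.Lib.MP_4fbe7c_an.SD.Calc
import Pool.Agent.Lib.MP_4fbe7c_an.SD.Lyap

/-!
Module LGP (helper38): the time derivative of `∫ f log P_k`.
-/

set_option autoImplicit false

open Set

namespace Pool.Agent.Lib.MP_4fbe7c_an.UL.H38

open Pool.Agent.Lib.MP_4fbe7c_an.SD Pool.Agent.Lib.MP_4fbe7c_an.SD.Lyap

theorem ii' {L : ℝ} (hL : 0 < L) {f : ℝ → ℝ} (hf : ContinuousOn f (Icc 0 L)) :
    IntervalIntegrable f MeasureTheory.volume 0 L := by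
  apply ContinuousOn.intervalIntegrable
  rwa [uIcc_of_le hL.le]

theorem lgp : LgpStatement := by
  intro L m n ρ u v w f f' k h hk hf cf' t ht
  have hL := h.hL
  have hkn : ∀ i ∈ Finset.range (k + 1), i ≤ n := fun i hi => by
    have := Finset.mem_range.1 hi
    omega
  have hnn : ∀ i ∈ Finset.range (n + 1), i ≤ n := fun i hi => by
    have := Finset.mem_range.1 hi
    omega
  have cf : ContinuousOn f (Icc 0 L) := hf.continuousOn
  have spm : ContinuousOn (fun p : ℝ × ℝ => m p.2) (Ioi 0 ×ˢ Icc 0 L) := space_continuousOn h.cm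
  have spf : ContinuousOn (fun p : ℝ × ℝ => f p.2) (Ioi 0 ×ˢ Icc 0 L) := space_continuousOn cf
  let P : ℝ → ℝ → ℝ := fun s x => ∑ i ∈ Finset.range (k + 1), u i s x
  let U : ℝ → ℝ → ℝ := fun s x => ∑ i ∈ Finset.range (n + 1), u i s x
  let ut : ℕ → ℝ → ℝ → ℝ := fun i s x => ρ i * w i s x + u i s x * (m x - U s x)
  let Pt : ℝ → ℝ → ℝ := fun s x => ∑ i ∈ Finset.range (k + 1), ut i s x
  have hPpos : ∀ s, 0 < s → ∀ x ∈ Icc 0 L, 0 < P s x := fun s hs x hx =>
    Finset.sum_pos (fun i hi => h.pos i (hkn i hi) s hs x hx) ⟨0, by simp⟩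
  have hne : ∀ p ∈ (Ioi (0 : ℝ)) ×ˢ (Icc 0 L), P p.1 p.2 ≠ 0 := fun p hp' =>
    (hPpos p.1 hp'.1 p.2 hp'.2).ne'
  have cP : ContinuousOn (fun p : ℝ × ℝ => P p.1 p.2) (Ioi 0 ×ˢ Icc 0 L) :=
    continuousOn_finsetSum _ fun i hi => h.cu i (hkn i hi)
  have cU : ContinuousOn (fun p : ℝ × ℝ => U p.1 p.2) (Ioi 0 ×ˢ Icc 0 L) :=
    continuousOn_finsetSum _ fun i hi => h.cu i (hnn i hi)
  have cut : ∀ i, i ≤ n → ContinuousOn (fun p : ℝ × ℝ => ut i p.1 p.2) (Ioi 0 ×ˢ Icc 0 L) :=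
    fun i hi => ((h.cw i hi).const_mul (ρ i)).add ((h.cu i hi).mul (spm.sub cU))
  have cPt : ContinuousOn (fun p : ℝ × ℝ => Pt p.1 p.2) (Ioi 0 ×ˢ Icc 0 L) :=
    continuousOn_finsetSum _ fun i hi => cut i (hkn i hi)
  let g : ℝ → ℝ → ℝ := fun s x => f x * Real.log (P s x)
  let gt : ℝ → ℝ → ℝ := fun s x => f x * (Pt s x / P s x)
  have cg : ContinuousOn (fun p : ℝ × ℝ => g p.1 p.2) (Ioi 0 ×ˢ Icc 0 L) :=
    spf.mul (cP.log hne)
  have cgt : ContinuousOn (fun p : ℝ × ℝ => gt p.1 p.2) (Ioi 0 ×ˢ Icc 0 L) :=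
    spf.mul (cPt.div cP hne)
  have hPd : ∀ s, 0 < s → ∀ x ∈ Icc 0 L, HasDerivAt (fun r => P r x) (Pt s x) s := by
    intro s hs x hx
    exact HasDerivAt.fun_sum fun i hi => h.dt i (hkn i hi) s hs x hx
  have hV := hasDerivAt_integral hL cg cgt (fun s hs x hx =>
    ((hPd s hs x hx).log (hPpos s hs x hx).ne').const_mul (f x)) t ht
  have su : ∀ i, i ≤ n → ContinuousOn (u i t) (Icc 0 L) := fun i hi =>
    slice_continuousOn ht (h.cu i hi)
  have sv : ∀ i, i ≤ n → ContinuousOn (v i t) (Icc 0 L) := fun i hi =>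
    slice_continuousOn ht (h.cv i hi)
  have sw : ∀ i, i ≤ n → ContinuousOn (w i t) (Icc 0 L) := fun i hi =>
    slice_continuousOn ht (h.cw i hi)
  have sgt : ContinuousOn (gt t) (Icc 0 L) := slice_continuousOn ht cgt
  have sP : ContinuousOn (P t) (Icc 0 L) := slice_continuousOn ht cP
  have sU : ContinuousOn (U t) (Icc 0 L) := slice_continuousOn ht cU
  have sne : ∀ x ∈ Icc 0 L, P t x ≠ 0 := fun x hx => (hPpos t ht x hx).ne'
  let Pv : ℝ → ℝ := fun x => ∑ i ∈ Finset.range (k + 1), v i t x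
  let Rv : ℝ → ℝ := fun x => ∑ i ∈ Finset.range (k + 1), ρ i * v i t x
  let Rw : ℝ → ℝ := fun x => ∑ i ∈ Finset.range (k + 1), ρ i * w i t x
  have sPv : ContinuousOn Pv (Icc 0 L) := continuousOn_finsetSum _ fun i hi => sv i (hkn i hi)
  have sRv : ContinuousOn Rv (Icc 0 L) :=
    continuousOn_finsetSum _ fun i hi => (sv i (hkn i hi)).const_mul (ρ i)
  have sRw : ContinuousOn Rw (Icc 0 L) :=
    continuousOn_finsetSum _ fun i hi => (sw i (hkn i hi)).const_mul (ρ i)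
  have dP : DerivOn L (P t) Pv := fun x hx =>
    HasDerivWithinAt.fun_sum fun i hi => h.dx i (hkn i hi) t ht x hx
  have dR : DerivOn L Rv Rw := fun x hx =>
    HasDerivWithinAt.fun_sum fun i hi => (h.dxx i (hkn i hi) t ht x hx).const_mul (ρ i)
  let J' : ℝ → ℝ := fun x => f' x * (Rv x / P t x) +
    f x * ((Rw x * P t x - Rv x * Pv x) / P t x ^ 2)
  have hJ : DerivOn L (fun x => f x * (Rv x / P t x)) J' := fun x hx =>
    (hf x hx).mul ((dR x hx).div (dP x hx) (sne x hx))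
  have cJ' : ContinuousOn J' (Icc 0 L) :=
    (cf'.mul (sRv.div sP sne)).add (cf.mul (((sRw.mul sP).sub (sRv.mul sPv)).div (sP.pow 2)
      fun x hx => pow_ne_zero 2 (sne x hx)))
  have hJint := integral_deriv hL hJ cJ'
  have r0 : Rv 0 = 0 := Finset.sum_eq_zero fun i hi => by rw [h.b0 i (hkn i hi) t ht, mul_zero]
  have rL : Rv L = 0 := Finset.sum_eq_zero fun i hi => by rw [h.bL i (hkn i hi) t ht, mul_zero]
  rw [r0, rL, zero_div, zero_div, mul_zero, mul_zero, sub_zero] at hJint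
  let G : ℝ → ℝ := fun x => f x * (m x - U t x) - f' x * (Rv x / P t x)
    + f x * (Pv x / P t x * (Rv x / P t x))
  have cG : ContinuousOn G (Icc 0 L) :=
    ((cf.mul (h.cm.sub sU)).sub (cf'.mul (sRv.div sP sne))).add
      (cf.mul ((sPv.div sP sne).mul (sRv.div sP sne)))
  have key : ∀ x ∈ Icc 0 L, gt t x = J' x + G x := by
    intro x hx
    have hP := sne x hx
    have e1 : Pt t x = Rw x + P t x * (m x - U t x) := by
      simp only [Pt, ut, Rw, P]
      rw [Finset.sum_add_distrib, Finset.sum_mul]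
    show f x * (Pt t x / P t x) = (f' x * (Rv x / P t x) +
      f x * ((Rw x * P t x - Rv x * Pv x) / P t x ^ 2)) + (f x * (m x - U t x)
        - f' x * (Rv x / P t x) + f x * (Pv x / P t x * (Rv x / P t x)))
    rw [e1]
    field_simp
    ring
  have hint : ∫ x in (0)..L, gt t x = ∫ x in (0)..L, G x := by
    rw [intervalIntegral.integral_congr (g := fun x => J' x + G x) (fun x hx => by
        rw [uIcc_of_le hL.le] at hx
        exact key x hx),
      intervalIntegral.integral_add (ii' hL cJ') (ii' hL cG), hJint, zero_add]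
  rw [hint] at hV
  exact hV

end Pool.Agent.Lib.MP_4fbe7c_an.UL.H38
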